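import Mathlib
import Pool.Agent.H447R2.MZ.Dich

/-!
# Multiple zeta values: the weight grading holds, or the dimensions tend to infinity

Let `Z_n` be the `ℚ`-span of the multiple zeta values of weight `n`. Zagier's conjecture says that
the sum of the `Z_n` is direct and that `dim Z_n = d_n`; at present `dim Z_n ≥ 2` is not known for
any single `n`.

1. If some element `z` of some `Z_k` is not an algebraic multiple of `π ^ k`, then
   `dim Z_n ≥ ⌊(n - 3 (n mod 2)) / (2 k)⌋ + 1` for all `n ≥ 2`.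
2. For every `p`, the sum `Z_0 + ⋯ + Z_p` is direct, or `dim Z_n ≥ ⌊(n - 3 (n mod 2)) / (2 p)⌋ + 1`
   for all `n ≥ 2`.
3. The sum of all `Z_n` is direct, or `dim Z_n → ∞` (at least linearly).
4. If for some `D` there are infinitely many `n` with `dim Z_n ≤ D`, then every element of every
   `Z_k` is an algebraic multiple of `π ^ k`, and the sum of all `Z_n` is direct.
-/

set_option autoImplicit false

namespace Pool.Agent.Results.MP_2000e9_nt.GradedOrGrowth

open Filter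

/-- the `ℚ`-span of the multiple zeta values
`ζ(n_1, …, n_r) = ∑_{0 < k_1 < ⋯ < k_r} k_1^(-n_1) ⋯ k_r^(-n_r)` (`n_i ≥ 1`, `n_r ≥ 2`) of weight `N`;
for `r = 0` the value is `1` and the weight `0` -/
noncomputable def Z (N : ℕ) : Submodule ℚ ℝ :=
  Submodule.span ℚ
    {x : ℝ | ∃ r : ℕ, ∃ n : Fin r → ℕ,
      (∀ i, 1 ≤ n i) ∧ (∀ h : 0 < r, 2 ≤ n ⟨r - 1, Nat.sub_lt h one_pos⟩) ∧ (∑ i, n i) = N ∧
      x = ∑' k : {k : Fin r → ℕ // StrictMono k ∧ ∀ i, 1 ≤ k i},
            ∏ i, (((k.1 i : ℕ) : ℝ) ^ (n i))⁻¹}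

/-- the sum of the spaces `Z_j`, `j ∈ s`, is direct -/
def DirectOn (s : Finset ℕ) : Prop :=
  ∀ z : ℕ → ℝ, (∀ j ∈ s, z j ∈ Z j) → ∑ j ∈ s, z j = 0 → ∀ j ∈ s, z j = 0

/-- the lower bound for the dimension -/
def bound (k n : ℕ) : ℕ := (n - 3 * (n % 2)) / (2 * k) + 1

lemma rev_tsum {t : ℕ} (f : (Fin t → ℕ) → ℝ) :
    ∑' m : {m : Fin t → ℕ // StrictAnti m ∧ ∀ i, 1 ≤ m i}, f m.1 =
      ∑' k : {k : Fin t → ℕ // StrictMono k ∧ ∀ i, 1 ≤ k i}, f (k.1 ∘ Fin.rev) := by
  let e : {m : Fin t → ℕ // StrictAnti m ∧ ∀ i, 1 ≤ m i} ≃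
      {k : Fin t → ℕ // StrictMono k ∧ ∀ i, 1 ≤ k i} :=
    { toFun := fun m => ⟨m.1 ∘ Fin.rev, fun i j hij => m.2.1 (Fin.rev_lt_rev.2 hij),
        fun i => m.2.2 _⟩
      invFun := fun m => ⟨m.1 ∘ Fin.rev, fun i j hij => m.2.1 (Fin.rev_lt_rev.2 hij),
        fun i => m.2.2 _⟩
      left_inv := fun m => by
        apply Subtype.ext
        funext i
        simp
      right_inv := fun m => by
        apply Subtype.ext
        funext i
        simp }
  rw [← e.tsum_eq]
  refine tsum_congr fun m => ?_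
  congr 1
  funext i
  simp [e]

theorem Z_eq (N : ℕ) : Z N = Pool.Agent.H447R2.MZ.Zs N := by
  unfold Pool.Agent.H447R2.MZ.Zs Z
  congr 1
  ext x
  constructor
  · rintro ⟨t, n, h1, h2, h3, rfl⟩
    refine ⟨t, n ∘ Fin.rev, fun i => h1 _, fun h => ?_, ?_, ?_⟩
    · have := h2 h
      have e : Fin.rev (⟨0, h⟩ : Fin t) = ⟨t - 1, Nat.sub_lt h one_pos⟩ := by
        ext
        simp only [Fin.val_rev]
        omega
      rw [Function.comp_apply, e]
      exact this
    · rw [← h3]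
      exact Fintype.sum_equiv Fin.revPerm _ _ fun i => rfl
    · rw [rev_tsum (fun m => ∏ i, (((m i : ℕ) : ℝ) ^ ((n ∘ Fin.rev) i))⁻¹)]
      refine tsum_congr fun k => ?_
      exact Fintype.prod_equiv Fin.revPerm _ _ fun i => by simp
  · rintro ⟨t, n, h1, h2, h3, rfl⟩
    refine ⟨t, n ∘ Fin.rev, fun i => h1 _, fun h => ?_, ?_, ?_⟩
    · have := h2 h
      have e : Fin.rev (⟨t - 1, Nat.sub_lt h one_pos⟩ : Fin t) = ⟨0, h⟩ := by
        ext
        simp only [Fin.val_rev]
        omega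
      rw [Function.comp_apply, e]
      exact this
    · rw [← h3]
      exact Fintype.sum_equiv Fin.revPerm _ _ fun i => rfl
    · rw [rev_tsum (fun m => ∏ i, (((m i : ℕ) : ℝ) ^ (n i))⁻¹)]
      refine tsum_congr fun k => ?_
      exact Fintype.prod_equiv Fin.revPerm _ _ fun i => by simp

lemma directOn_mono {s t : Finset ℕ} (hst : s ⊆ t) (h : DirectOn t) : DirectOn s := by
  classical
  intro z hz hs j hj
  have h1 := h (fun j => if j ∈ s then z j else 0) (fun j _ => by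
    by_cases hjs : j ∈ s
    · simp only [hjs, if_true]; exact hz j hjs
    · simp only [hjs, if_false]; exact Submodule.zero_mem _) (by
    rw [Finset.sum_ite_mem, Finset.inter_eq_right.2 hst, hs]) j (hst hj)
  simpa [hj] using h1

lemma growth {k : ℕ} {z : ℝ} (hz : z ∈ Z k) (ht : Transcendental ℚ (z / Real.pi ^ k)) {n : ℕ}
    (hn : 2 ≤ n) : (bound k n : Cardinal) ≤ Module.rank ℚ (Z n) := by
  rw [Z_eq] at hz ⊢
  exact Pool.Agent.H447R2.MZ.growth k z hz ht n hn

lemma bound_mono {k p n : ℕ} (hk : 1 ≤ k) (hkp : k ≤ p) : bound p n ≤ bound k n := by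
  unfold bound
  have : (n - 3 * (n % 2)) / (2 * p) ≤ (n - 3 * (n % 2)) / (2 * k) :=
    Nat.div_le_div_left (by omega) (by omega)
  omega

lemma direct_of_algebraic (p : ℕ)
    (h : ∀ j ≤ p, ∀ z ∈ Z j, IsAlgebraic ℚ (z / Real.pi ^ j)) :
    DirectOn (Finset.range (p + 1)) := by
  intro z hz hs j hj
  refine Pool.Agent.H447R2.MZ.direct_of_algebraic p (fun j hj z hz => ?_) z (fun j hj => ?_) hs j
    (by rw [Finset.mem_range] at hj; omega)
  · rw [← Z_eq] at hz
    exact h j hj z hz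
  · rw [← Z_eq]
    exact hz j (Finset.mem_range.2 (by omega))

lemma dichotomy (p : ℕ) : DirectOn (Finset.range (p + 1)) ∨
    ∀ n, 2 ≤ n → (bound p n : Cardinal) ≤ Module.rank ℚ (Z n) := by
  rcases Pool.Agent.H447R2.MZ.direct_or p with h | ⟨k, hk3, hkp, z, hz, ht⟩
  · left
    intro z hz hs j hj
    refine h z (fun j hj => ?_) hs j (by rw [Finset.mem_range] at hj; omega)
    rw [← Z_eq]
    exact hz j (Finset.mem_range.2 (by omega))
  · right
    intro n hn
    rw [← Z_eq] at hz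
    refine le_trans ?_ (growth hz ht hn)
    exact_mod_cast bound_mono (by omega) hkp

lemma bound_tendsto (k D : ℕ) (hk : 1 ≤ k) : ∀ᶠ n in atTop, D ≤ bound k n := by
  filter_upwards [eventually_ge_atTop (2 * k * D + 3)] with n hn
  unfold bound
  have h1 : 2 * k * D ≤ n - 3 * (n % 2) := by omega
  have h2 : D ≤ (n - 3 * (n % 2)) / (2 * k) := by
    rw [Nat.le_div_iff_mul_le (by omega)]
    rw [mul_comm]
    exact h1
  omega

theorem result :
    -- 1. one element which is not an algebraic multiple of the power of `π`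
    (∀ (k : ℕ) (z : ℝ), z ∈ Z k → Transcendental ℚ (z / Real.pi ^ k) → ∀ n, 2 ≤ n →
      (bound k n : Cardinal) ≤ Module.rank ℚ (Z n)) ∧
    -- 2. weights up to `p`
    (∀ p : ℕ, DirectOn (Finset.range (p + 1)) ∨
      ∀ n, 2 ≤ n → (bound p n : Cardinal) ≤ Module.rank ℚ (Z n)) ∧
    -- 3. all weights
    ((∀ s : Finset ℕ, DirectOn s) ∨
      ∃ p : ℕ, 1 ≤ p ∧ ∀ n, 2 ≤ n → (bound p n : Cardinal) ≤ Module.rank ℚ (Z n)) ∧
    -- 4. bounded dimensions
    (∀ D : ℕ, (∃ᶠ n in atTop, Module.rank ℚ (Z n) ≤ (D : Cardinal)) →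
      (∀ (k : ℕ) (z : ℝ), z ∈ Z k → IsAlgebraic ℚ (z / Real.pi ^ k)) ∧
        ∀ s : Finset ℕ, DirectOn s) := by
  have key : ∀ D : ℕ, (∃ᶠ n in atTop, Module.rank ℚ (Z n) ≤ (D : Cardinal)) →
      ∀ (k : ℕ) (z : ℝ), z ∈ Z k → IsAlgebraic ℚ (z / Real.pi ^ k) := by
    intro D hD k z hz
    rcases Nat.eq_zero_or_pos k with rfl | hk
    · rw [Z_eq] at hz
      obtain ⟨q, rfl⟩ := Pool.Agent.H447R2.MZ.Zs_zero hz
      simpa using (isAlgebraic_ratCast ℚ q : IsAlgebraic ℚ ((q : ℝ)))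
    · by_contra ht
      obtain ⟨n, hn1, hn2, hn3⟩ := (hD.and_eventually
        ((bound_tendsto k (D + 1) hk).and (eventually_ge_atTop 2))).exists
      have h1 := (growth hz ht hn3).trans hn1
      have h2 : bound k n ≤ D := by exact_mod_cast h1
      omega
  have hall : (∀ p : ℕ, DirectOn (Finset.range (p + 1))) → ∀ s : Finset ℕ, DirectOn s := by
    intro h s
    refine directOn_mono (t := Finset.range (s.sup id + 1)) (fun j hj => ?_) (h _)
    rw [Finset.mem_range, Nat.lt_succ_iff]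
    exact Finset.le_sup (f := id) hj
  refine ⟨fun k z hz ht n hn => growth hz ht hn, dichotomy, ?_, fun D hD => ⟨key D hD, hall ?_⟩⟩
  · by_cases h : ∀ p : ℕ, DirectOn (Finset.range (p + 1))
    · exact Or.inl (hall h)
    · right
      push Not at h
      obtain ⟨p, hp⟩ := h
      refine ⟨p + 1, by omega, fun n hn => ?_⟩
      rcases dichotomy (p + 1) with h1 | h1
      · exact absurd (directOn_mono (Finset.range_mono (by omega)) h1) hp
      · exact h1 n hn
  · exact fun p => direct_of_algebraic p fun j _ z hz => key D hD j z hz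

end Pool.Agent.Results.MP_2000e9_nt.GradedOrGrowth
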