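import Pool.Agent.H53.MZ.Growth

/-!
# Multiple zeta values: directness, transcendence degree and the growth of the dimensions

Let `Z_n` be the `ℚ`-span of the multiple zeta values of weight `n`.  It is not known whether `dim Z_n ≥ 2` for
a single `n`, and it is not known whether the sum of the spaces `Z_n` is direct.  We prove that these two parts of
Zagier's conjecture and the transcendence degree of the field generated by the multiple zeta values are
connected.

1. If there are `t + 1` algebraically independent elements of the spaces `Z_w` (of arbitrary weights), then there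
   is `k ≥ 1` with `dim Z_n ≥ binom (⌊(n - 2) / k⌋ + t, t)` for all `n ≥ 2`, which is at least `c n ^ t`.
2. If for some `p` the sum `Z_0 + ... + Z_p` is not direct, then `t` algebraically independent elements are enough
   for the same conclusion.  For `t = 1` these are there (`π ^ 2`), and:
3. For every `p` either the sum `Z_0 + ... + Z_p` is direct, or there is `k`, `3 ≤ k ≤ p`, such that
   `dim Z_n ≥ ⌊(n - 3 (n mod 2)) / (2 k)⌋ + 1` for all `n ≥ 2`.
4. Either there is `k` with `dim Z_n ≥ ⌊(n - 3 (n mod 2)) / (2 k)⌋ + 1` for all `n ≥ 2`, or the sum of all `Z_n` is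
   direct and all elements of `Z_w` are algebraic multiples of `π ^ w`, for every `w`.

So if `dim Z_n ≤ C n ^ s` for infinitely many `n` then at most `s + 1` multiple zeta values are algebraically
independent, and at most `s` if there is an inhomogeneous relation.

Proof.  Let `k` be the field of the ratios `x / y` of elements of the same weight.  All multiple zeta values are
algebraic over `k(π)`, and over `k` if the sum is not direct (helper129, `Pool.Agent.Y129.MZ`).  By the exchange
property there are `t` algebraically independent ratios, with a common denominator `x_0 ∈ Z_w`; the monomials of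
degree `m` in the numerators and `x_0`, times an element of weight `n - w m ≥ 2`, are independent elements of `Z_n`.
Parts 3 and 4 use helper447's `Pool.Agent.H447R2.MZ.Dich` (starting library, not handed in): if all `z / π ^ w` are
algebraic then the sum is direct, as `π` is transcendental.
-/

set_option autoImplicit false

namespace Pool.Agent.Results.MP_2000e9_nt.GrowthOfDimensions

/-- The `ℚ`-span of the multiple zeta values `∑_{n_1 > ... > n_r > 0} 1 / (n_1 ^ k_1 ⋯ n_r ^ k_r)` of weight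
`k_1 + ... + k_r = N`, where `k_1 ≥ 2` and all `k_i ≥ 1`; for `r = 0` the value is `1` and the weight is `0`. -/
noncomputable def Z (N : ℕ) : Submodule ℚ ℝ :=
  Submodule.span ℚ
    {x : ℝ | ∃ r : ℕ, ∃ k : Fin r → ℕ,
      (∀ i, 1 ≤ k i) ∧ (∀ h : 0 < r, 2 ≤ k ⟨0, h⟩) ∧ (∑ i, k i) = N ∧
      x = ∑' n : {n : Fin r → ℕ // StrictAnti n ∧ ∀ i, 1 ≤ n i},
            ∏ i, (((n.1 i : ℕ) : ℝ) ^ (k i))⁻¹}

/-- The sum `Z_0 + ... + Z_p` is direct. -/
def Direct (p : ℕ) : Prop :=
  ∀ z : ℕ → ℝ, (∀ j ≤ p, z j ∈ Z j) → (∑ j ∈ Finset.range (p + 1), z j) = 0 → ∀ j ≤ p, z j = 0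

/-- There are `m` algebraically independent elements of the spaces `Z_w` (of arbitrary weights). -/
def Independent (m : ℕ) : Prop :=
  ∃ (w : Fin m → ℕ) (z : Fin m → ℝ), (∀ i, z i ∈ Z (w i)) ∧ AlgebraicIndependent ℚ z

/-- `dim Z_n ≥ binom (⌊(n - 2) / k⌋ + t, t)` for some `k ≥ 1` and all `n ≥ 2`. -/
def Growth (t : ℕ) : Prop :=
  ∃ k : ℕ, 1 ≤ k ∧ ∀ n : ℕ, 2 ≤ n →
    ((((n - 2) / k + t).choose t : ℕ) : Cardinal) ≤ Module.rank ℚ (Z n)

/-- `dim Z_n ≥ ⌊(n - 3 (n mod 2)) / (2 k)⌋ + 1` for all `n ≥ 2`. -/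
def LinearGrowth (k : ℕ) : Prop :=
  ∀ n : ℕ, 2 ≤ n → (((n - 3 * (n % 2)) / (2 * k) + 1 : ℕ) : Cardinal) ≤ Module.rank ℚ (Z n)

/-- **Main result.** -/
theorem result :
    (∀ t : ℕ, Independent (t + 1) → Growth t) ∧
    (∀ t : ℕ, Independent t → (∃ p, ¬ Direct p) → Growth t) ∧
    (∀ p : ℕ, Direct p ∨ ∃ k, 3 ≤ k ∧ k ≤ p ∧ LinearGrowth k) ∧
    ((∃ k, 3 ≤ k ∧ LinearGrowth k) ∨
      ((∀ p, Direct p) ∧ ∀ w, ∀ z ∈ Z w, IsAlgebraic ℚ (z / Real.pi ^ w))) := by
  refine ⟨?_, ?_, ?_, ?_⟩
  · rintro t ⟨w, z, hz, hai⟩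
    exact Pool.Agent.H53.MZ.growth_gen w z hz hai
  · rintro t ⟨w, z, hz, hai⟩ ⟨p, hp⟩
    exact Pool.Agent.H53.MZ.growth_nd (p := p) hp w z hz hai
  · intro p
    rcases Pool.Agent.H447R2.MZ.direct_or p with h | ⟨k, h3, hk, z, hz, ht⟩
    · exact Or.inl h
    · exact Or.inr ⟨k, h3, hk, Pool.Agent.H447R2.MZ.growth k z hz ht⟩
  · by_cases h : ∀ w, ∀ z ∈ Z w, IsAlgebraic ℚ (z / Real.pi ^ w)
    · exact Or.inr ⟨fun p => Pool.Agent.H447R2.MZ.direct_of_algebraic p fun j _ => h j, h⟩
    · left
      push Not at h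
      obtain ⟨k, z, hz, ht⟩ := h
      refine ⟨k, ?_, Pool.Agent.H447R2.MZ.growth k z hz ht⟩
      by_contra hlt
      interval_cases k
      · obtain ⟨q, rfl⟩ := Pool.Agent.H447R2.MZ.Zs_zero hz
        apply ht
        simpa using (isAlgebraic_ratCast ℚ q : IsAlgebraic ℚ ((q : ℝ)))
      · apply ht
        rw [Pool.Agent.H447R2.MZ.Zs_one hz, zero_div]
        exact isAlgebraic_zero
      · obtain ⟨q, rfl⟩ := Pool.Agent.H447R2.MZ.Zs_two hz
        apply ht
        have : (q : ℝ) * Real.pi ^ 2 / Real.pi ^ 2 = q := by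
          have : Real.pi ^ 2 ≠ 0 := pow_ne_zero _ Real.pi_ne_zero
          field_simp
        rw [this]
        exact isAlgebraic_ratCast ℚ q

end Pool.Agent.Results.MP_2000e9_nt.GrowthOfDimensions
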