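import Pool.Agent.Q29.EqExp
import Pool.Agent.Q29.EqCo
import Pool.Agent.Q29.MzBd
import Pool.Agent.Results.MP_2000e9_nt.MixedWeights

/-!
# Joint uniform distribution of the multiples of multiple zeta values of different weights

Let `β_0 = 1, β_1, …, β_l` be real algebraic numbers, linearly independent over the rationals. We consider the numbers
`β_i ζ(v_j)` for any `N` different indices `v_1, …, v_N` (nothing is fixed but their number), of depth at most `c`, with first
argument (the one of the largest variable) at least `n` and all arguments at most `c n`; the weights are arbitrary. There is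
`D > 1` such that for all `E` and `K` there is `κ > 0` such that for all large `n`, all such indices and all `M` with
`D ^ n ≤ M ≤ E ^ n` the multiples of the vector of any of these numbers by the integers up to `M`, by their `k`-th powers for
`k ≤ K` (even with real polynomials of degree less than `k` added), and by the primes up to `M` in each residue class modulo
`d ≤ M ^ κ` are jointly uniformly distributed modulo one in the cubes of side `1 / q`, `q ≤ M ^ κ`, with an error `M ^ (1 - κ)`.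

The proof uses the measure of linear independence of the starting hand-in `MixedWeights`, an inverse theorem for the sums of
Weyl and a form of the estimate of Vinogradov for the sums over primes with a power saving (`H373R2/NB`, `W110/HV`).
-/

set_option autoImplicit false

namespace Pool.Agent.Results.MP_2000e9_nt.MultiplesOfMixedWeights

open Finset Polynomial

/-- The points `y n ∈ ℝ ^ s`, `n ∈ S`, are uniformly distributed modulo one with error `E` in the cubes of side `1 / q`,
`q ≤ Q`. -/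
def Equi {s : ℕ} (S : Finset ℕ) (y : ℕ → Fin s → ℝ) (Q E : ℝ) : Prop :=
  ∀ q : ℕ, 1 ≤ q → (q : ℝ) ≤ Q → ∀ ρ : Fin s → ℤ, (∀ j, 0 ≤ ρ j ∧ ρ j < q) →
    |((S.filter fun n => ∀ j, (ρ j : ℝ) / q ≤ Int.fract (y n j) ∧ Int.fract (y n j) < (ρ j + 1) / q).card : ℝ) -
      S.card / (q : ℝ) ^ s| ≤ E

/-- The multiples of the vector `x` are uniformly distributed modulo one at the scale `M`, with a power saving, along all
polynomials of degree `k ≤ K` (the points `x n ^ k + R(n)`, `0 ≤ n < M`, `R` a vector of real polynomials of degree less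
than `k`), and along the primes in all residue classes modulo `d ≤ M ^ κ` (the points `x p + β`, `p ≤ M` prime,
`p ≡ r (mod d)`). -/
def Joint (κ : ℝ) (K M : ℕ) {s : ℕ} (x : Fin s → ℝ) : Prop :=
  (∀ k : ℕ, 1 ≤ k → k ≤ K → ∀ R : Fin s → ℝ[X], (∀ j, (R j).degree < k) →
    Equi (range M) (fun n j => x j * (n : ℝ) ^ k + (R j).eval (n : ℝ)) ((M : ℝ) ^ κ) ((M : ℝ) ^ (1 - κ))) ∧
  (∀ d r : ℕ, 1 ≤ d → (d : ℝ) ≤ (M : ℝ) ^ κ → ∀ β : Fin s → ℝ,
    Equi ((range (M + 1)).filter fun p => p.Prime ∧ p ≡ r [MOD d]) (fun p j => x j * p + β j) ((M : ℝ) ^ κ)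
      ((M : ℝ) ^ (1 - κ)))

theorem joint_iff (κ : ℝ) (K M : ℕ) {s : ℕ} (x : Fin s → ℝ) : Joint κ K M x ↔ Pool.Agent.Q29.Eqd.Joint κ K M x :=
  Iff.rfl

/-- truncated multiple sums: `trunc [s_1, ..., s_r] m` is the sum of `∏ n_i ^ (-s_i)` over `m > n_1 > ... > n_r ≥ 1` -/
noncomputable def trunc : List ℕ → ℕ → ℝ
  | [], _ => 1
  | s :: l, m => ∑ j ∈ Finset.Ico 1 m, trunc l j / (j : ℝ) ^ s

/-- the multiple zeta value, the sum of `∏ n_i ^ (-s_i)` over `n_1 > ... > n_r ≥ 1` -/
noncomputable def mzv : List ℕ → ℝ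
  | [] => 1
  | s :: l => ∑' m : ℕ, trunc l (m + 1) / ((m + 1 : ℕ) : ℝ) ^ s

/-- the nonempty indices of depth at most `c`, with first argument at least `n` and all arguments between `1` and `c n` -/
def Index (c : ℝ) (n : ℕ) (v : List ℕ) : Prop :=
  v ≠ [] ∧ (v.length : ℝ) ≤ c ∧ (∀ m ∈ v, 1 ≤ m ∧ (m : ℝ) ≤ c * n) ∧ ∀ s ∈ v.head?, n ≤ s

theorem trunc_eq (w : List ℕ) : ∀ m, trunc w m = Pool.Agent.Y760.ZG.hr w m := by
  induction w with
  | nil => intro m; rw [trunc, Pool.Agent.Y760.ZG.hr_nil]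
  | cons s w ih =>
    intro m
    rw [trunc, Pool.Agent.Y760.ZG.hr_cons]
    exact Finset.sum_congr rfl fun j _ => by rw [ih]

theorem mzv_eq (w : List ℕ) : mzv w = Pool.Agent.Y760.ZG.mz w := by
  cases w with
  | nil => rw [mzv, Pool.Agent.Y760.ZG.mz]
  | cons s w =>
    rw [mzv, Pool.Agent.Y760.ZG.mz]
    exact tsum_congr fun m => by rw [trunc_eq]

/-- **Joint uniform distribution of the multiples of multiple zeta values of different weights.** -/
theorem result {l N s : ℕ} (β : Fin (l + 1) → ℝ) (hβ : ∀ j, IsAlgebraic ℚ (β j)) (hβ0 : β 0 = 1)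
    (hβi : LinearIndependent ℚ β) (f : Fin s → Fin (l + 1) × Fin N) (hf : Function.Injective f) (hs : 1 ≤ s) (c : ℝ) :
    ∃ D : ℝ, 1 < D ∧ ∀ (E : ℝ) (K : ℕ), ∃ κ : ℝ, 0 < κ ∧ ∃ n0 : ℕ, ∀ n : ℕ, n0 ≤ n →
      ∀ v : Fin N → List ℕ, Function.Injective v → (∀ j, Index c n (v j)) → ∀ M : ℕ,
        D ^ n ≤ (M : ℝ) → (M : ℝ) ≤ E ^ n → Joint κ K M (fun k => β (f k).1 * mzv (v (f k).2)) := by
  classical
  obtain ⟨X, hXE⟩ : ∃ X : ℝ, X = 1 + 2 * ∑ j, |β j| := ⟨_, rfl⟩
  have hS0 : 0 ≤ ∑ j, |β j| := Finset.sum_nonneg fun j _ => abs_nonneg _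
  have hX : 1 ≤ X := by rw [hXE]; linarith
  have hβX : ∀ j, |β j| * 2 ≤ X := fun j => by
    have := Finset.single_le_sum (f := fun j => |β j|) (fun j _ => abs_nonneg _) (mem_univ j)
    rw [hXE]
    linarith
  obtain ⟨B, hB, n0, hmain⟩ := Pool.Agent.Results.MP_2000e9_nt.MixedWeights.result β hβ hβi (N + 1) c 1 (2 * X) one_pos
  refine ⟨B ^ 2, one_lt_pow₀ hB (by norm_num), fun E K => ?_⟩
  obtain ⟨κ, hκ, n₁, hjoint⟩ := Pool.Agent.Q29.Eqd.joint_exp s hs K 2 B X E (by norm_num) hB hX
  refine ⟨κ, hκ, n0 + n₁ + ⌈c⌉₊ + 2, fun n hn v hv hvI M hDM hME => ?_⟩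
  rw [joint_iff]
  have hnc : c ≤ n := (Nat.le_ceil c).trans (by exact_mod_cast (by omega : ⌈c⌉₊ ≤ n))
  have hmz : ∀ w : List ℕ, Pool.Agent.Results.MP_2000e9_nt.MixedWeights.mzv w = mzv w := fun w => by
    rw [Pool.Agent.Results.MP_2000e9_nt.MixedWeights.mzv_eq, mzv_eq]
  refine hjoint n (by omega) _ (fun k => ?_) (fun w a hw hwA haA => ?_) M hDM hME
  · obtain ⟨h1, h2, h3, h4⟩ := hvI (f k).2
    rw [abs_mul]
    have h5 : |mzv (v (f k).2)| ≤ 2 := by
      rw [mzv_eq]
      refine Pool.Agent.Q29.Eqd.abs_mz_le _ fun t ht => ?_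
      have h6 := h4 t ht
      have h7 : ((v (f k).2).length : ℝ) ≤ ⌈c⌉₊ := h2.trans (Nat.le_ceil c)
      have h8 : (v (f k).2).length ≤ ⌈c⌉₊ := by exact_mod_cast h7
      omega
    calc |β (f k).1| * |mzv (v (f k).2)| ≤ |β (f k).1| * 2 := mul_le_mul_of_nonneg_left h5 (abs_nonneg _)
      _ ≤ X := hβX _
      _ = X ^ 1 := (pow_one X).symm
      _ ≤ X ^ n := pow_le_pow_right₀ hX (by omega)
  · obtain ⟨co, hco1, ⟨k, hk⟩, hco2⟩ := Pool.Agent.Q29.Eqd.forms ((0, []) : Fin (l + 1) × List ℕ)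
      (fun k => ((f k).1, v (f k).2)) (fun k k' h => by
        have h1 := Prod.ext_iff.1 h
        exact hf (Prod.ext h1.1 (hv h1.2))) (fun k h => (hvI (f k).2).1 (Prod.ext_iff.1 h).2)
      (insert [] (univ.image v)) (mem_insert_self _ _)
      (fun k => mem_insert_of_mem (mem_image_of_mem v (mem_univ _))) w a hw ((2 * X) ^ n)
      (fun k => (hwA k).trans (pow_le_pow_left₀ (by norm_num) (by linarith) n)) haA
      (fun j u => β j * mzv u) (by
        show β 0 * mzv [] = 1
        rw [hβ0, mzv, one_mul])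
    have h1 := hmain n (by omega) (insert [] (univ.image v)) ∅ (by
        refine (Finset.card_insert_le _ _).trans ?_
        have := Finset.card_image_le (s := (univ : Finset (Fin N))) (f := v)
        rw [Finset.card_univ, Fintype.card_fin] at this
        omega)
      (by
        intro u hu
        rcases mem_insert.1 hu with rfl | hu
        · simp
        · obtain ⟨j, -, rfl⟩ := mem_image.1 hu
          obtain ⟨h1, h2, h3, h4⟩ := hvI j
          refine ⟨fun m hm => (h3 m hm).1, fun t ht => ⟨h4 t ht, fun m hm => (h3 m hm).2.trans ?_⟩⟩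
          have hc0 : 0 ≤ c := (Nat.cast_nonneg _).trans h2
          have : (n : ℝ) ≤ t := by exact_mod_cast h4 t ht
          exact mul_le_mul_of_nonneg_left this hc0)
      (by simp) co (fun _ => 0)
      (by
        obtain ⟨h1, h2, h3, h4⟩ := hvI (f k).2
        refine ⟨v (f k).2, mem_insert_of_mem (mem_image_of_mem v (mem_univ _)), h1, h2, fun t ht => ?_, fun h0 => ?_⟩
        · exact (h3 t (List.mem_of_mem_head? ht)).2
        · exact hk (congrFun h0 _))
      (fun u _ j => hco1 u j) (by simp)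
    rw [Finset.sum_empty, sub_zero] at h1
    refine lt_of_lt_of_eq h1 ?_
    congr 1
    rw [← hco2]
    refine Finset.sum_congr rfl fun u _ => ?_
    rw [hmz, Finset.sum_mul]
    exact Finset.sum_congr rfl fun j _ => by ring

end Pool.Agent.Results.MP_2000e9_nt.MultiplesOfMixedWeights
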