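import Pool.Agent.Q263.ZO.Filtered

/-!
# Both parts of Zagier's conjecture from the dimension of `Z_0 + ... + Z_N`

Let `Z k` be the `ℚ`-span of the multiple zeta values of weight `k` (`Zs k`), `d k` the numbers
`1, 0, 1, 1, 1, 2, 2, 3, ...` and `S 0 N = Z 0 + ... + Z N`. We use the known theorem that the
multiple zeta values are the images of a graded algebra `H` of motivic multiple zeta values, an
integral domain of dimension `d k` in weight `k` (`Motivic`, `Motivic.Graded`). Theorem: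

1. Suppose that the conjecture fails in weights at most `n`: `dim Z k ≠ d k` for some `k ≤ n`, or
   `Z 0 + ... + Z n` is not direct. Then for all `N ≥ n` the dimension of `Z 0 + ... + Z N` is at
   most `d (N - n + 1) + ... + d N`, the sum of the last `n` of the numbers, and at most
   `(1 - 2 ^ (-n)) (d 0 + ... + d N)`.
2. Both parts of the conjecture hold if and only if
   `limsup dim (Z 0 + ... + Z N) / (d 0 + ... + d N) = 1`.
3. Both parts hold if and only if for every `n` there is one `N ≥ n` such that the dimension of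
   `Z 0 + ... + Z N` is larger than `d (N - n + 1) + ... + d N`; and one such `N` gives both parts
   in the weights up to `n`.

`Conjecture` is the statement of `S16267`.
-/

set_option autoImplicit false

open Module Filter

namespace Pool.Agent.Results.MP_2000e9_nt.OneFailureEverywhere

open Pool.Agent.Q263.ZO Pool.Agent.H447R2.MZ

/-- both parts of the conjecture, in the words of `S16267` -/
def Conjecture : Prop :=
  ∀ d : ℕ → ℕ, d 0 = 1 → d 1 = 0 → d 2 = 1 → (∀ n, d (n + 3) = d (n + 1) + d n) →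
    ∀ Z : ℕ → Submodule ℚ ℝ,
      (∀ N, Z N = Submodule.span ℚ
        {x : ℝ | ∃ r : ℕ, ∃ k : Fin r → ℕ, (∀ i, 1 ≤ k i) ∧ (∀ h : 0 < r, 2 ≤ k ⟨0, h⟩) ∧
          (∑ i, k i) = N ∧
          x = ∑' n : {n : Fin r → ℕ // StrictAnti n ∧ ∀ i, 1 ≤ n i},
                ∏ i, (1 / (n.1 i : ℝ)) ^ (k i)}) →
      (∀ N, Module.finrank ℚ (Z N) = d N) ∧ iSupIndep Z

theorem Zs_form (N : ℕ) : Zs N = Submodule.span ℚ
    {x : ℝ | ∃ r : ℕ, ∃ k : Fin r → ℕ, (∀ i, 1 ≤ k i) ∧ (∀ h : 0 < r, 2 ≤ k ⟨0, h⟩) ∧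
      (∑ i, k i) = N ∧
      x = ∑' n : {n : Fin r → ℕ // StrictAnti n ∧ ∀ i, 1 ≤ n i},
            ∏ i, (1 / (n.1 i : ℝ)) ^ (k i)} := by
  unfold Zs
  simp only [one_div, inv_pow]

theorem indep_iff : iSupIndep Zs ↔ ∀ N, ¬ HasRel 0 N := by
  rw [iSupIndep_iff_finsetSum_eq_zero_imp_eq_zero]
  constructor
  · rintro h N ⟨z, hz, hs, j, hj0, hj, hne⟩
    exact hne (h (Finset.Icc 0 N) z (fun i hi => hz i (Finset.mem_Icc.1 hi).1 (Finset.mem_Icc.1 hi).2)
      hs j (Finset.mem_Icc.2 ⟨hj0, hj⟩))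
  · intro h s v hv hs i hi
    by_contra hne
    classical
    refine h (s.sup id) ⟨fun k => if k ∈ s then v k else 0, fun j _ _ => ?_, ?_, i, Nat.zero_le i,
      Finset.le_sup (f := id) hi, ?_⟩
    · by_cases hj : j ∈ s
      · simp only [if_pos hj]; exact hv j hj
      · simp only [if_neg hj]; exact Submodule.zero_mem _
    · rw [← Finset.sum_filter]
      have e : (Finset.Icc 0 (s.sup id)).filter (fun k => k ∈ s) = s := by
        ext k
        rw [Finset.mem_filter, Finset.mem_Icc]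
        exact ⟨fun h => h.2, fun h => ⟨⟨Nat.zero_le k, Finset.le_sup (f := id) h⟩, h⟩⟩
      rw [e]
      exact hs
    · simp only [if_pos hi]
      exact hne

theorem conjecture_iff : Conjecture ↔ Both := by
  constructor
  · intro h
    have h1 := h d (by simp [d]) (by simp [d]) (by simp [d]) d_rec Zs Zs_form
    exact ⟨h1.1, indep_iff.1 h1.2⟩
  · rintro ⟨h1, h2⟩ e h0 he1 he2 he3 Z hZ
    have hd : e = d := by
      refine d_unique e h0 he1 he2 fun n hn => ?_
      obtain ⟨m, rfl⟩ := Nat.exists_eq_add_of_le' hn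
      rw [he3]
      rfl
    have hZ' : Z = Zs := by
      funext N
      rw [hZ N, Zs_form N]
    subst hd hZ'
    exact ⟨h1, indep_iff.2 h2⟩

theorem result (M : Motivic Zs) (hM : M.Graded) :
    (∀ n, ((∃ k ≤ n, finrank ℚ (Zs k) ≠ d k) ∨ HasRel 0 n) → ∀ N, n ≤ N →
      finrank ℚ (S 0 N) ≤ ∑ k ∈ Finset.Ioc (N - n) N, d k ∧
      2 ^ n * finrank ℚ (S 0 N) ≤ (2 ^ n - 1) * ∑ k ∈ Finset.Icc 0 N, d k) ∧
    (Conjecture ↔ ∀ ε : ℝ, 0 < ε → ∃ᶠ N in atTop,
      (1 - ε) * ((∑ k ∈ Finset.Icc 0 N, d k : ℕ) : ℝ) < finrank ℚ (S 0 N)) ∧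
    (∀ n, (∃ N, n ≤ N ∧ ∑ k ∈ Finset.Ioc (N - n) N, d k < finrank ℚ (S 0 N)) →
      (∀ k ≤ n, finrank ℚ (Zs k) = d k) ∧ ¬ HasRel 0 n) ∧
    (Conjecture ↔ ∀ n, ∃ N, n ≤ N ∧ ∑ k ∈ Finset.Ioc (N - n) N, d k < finrank ℚ (S 0 N)) := by
  have key : ∀ n, ((∃ k ≤ n, finrank ℚ (Zs k) ≠ d k) ∨ HasRel 0 n) → ∀ N, n ≤ N →
      finrank ℚ (S 0 N) ≤ ∑ k ∈ Finset.Ioc (N - n) N, d k := by
    intro n hn N hN
    have h1 := M.fstep hM n N hN ((ne_iff M n).2 hn)
    have h2 := D_split n N hN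
    omega
  refine ⟨fun n hn N hN => ⟨key n hn N hN, M.fratio hM n ((ne_iff M n).2 hn) N hN⟩, ?_, ?_, ?_⟩
  · rw [conjecture_iff]
    exact both_iff_limsup M hM
  · rintro n ⟨N, hN, h⟩
    by_contra hc
    have h1 : (∃ k ≤ n, finrank ℚ (Zs k) ≠ d k) ∨ HasRel 0 n := by
      by_contra hc2
      push Not at hc2
      exact hc hc2
    have := key n h1 N hN
    omega
  · rw [conjecture_iff]
    exact both_iff_gap M hM

end Pool.Agent.Results.MP_2000e9_nt.OneFailureEverywhere
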